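import Mathlib
import Pool.Agent.TH202.Dat
import Pool.Agent.W497.Mld.Aff

/-!
# The cyclic cubic extension of `ℂ(a, b, c)` and the partial derivatives
-/

set_option autoImplicit false

namespace Pool.Agent.TH922.C8_DAT

open Pool.Agent.H436R3.Fol Pool.Agent.TH202 MvPolynomial Pool.Agent.W497.Mld

section der

variable {K : Type} [Field K] [Algebra ℂ K]

/-- The field of constants of a derivation. -/
def kerD (D : Derivation ℂ K K) : IntermediateField ℂ K where
  carrier := {f | D f = 0}
  mul_mem' := by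
    intro a b ha hb
    simp only [Set.mem_ofPred_eq] at ha hb ⊢
    rw [Derivation.leibniz, ha, hb, smul_zero, smul_zero, add_zero]
  one_mem' := by simp
  add_mem' := by
    intro a b ha hb
    simp only [Set.mem_ofPred_eq] at ha hb ⊢
    rw [map_add, ha, hb, add_zero]
  zero_mem' := by simp
  algebraMap_mem' := fun c => D.map_algebraMap c
  inv_mem' := by
    intro a ha
    simp only [Set.mem_ofPred_eq] at ha ⊢
    rw [Derivation.leibniz_inv, ha, smul_zero]

theorem mem_kerD {D : Derivation ℂ K K} {f : K} : f ∈ kerD D ↔ D f = 0 := Iff.rfl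

variable (d : Dat K)

include d in
theorem a_ne : d.a ≠ 0 := by
  have := d.ind.ne_zero 0
  simpa using this

include d in
theorem b_ne : d.b ≠ 0 := by
  have := d.ind.ne_zero 1
  simpa using this

theorem poly_ne {q : MvPolynomial (Fin 3) ℂ} (hq : q ≠ 0) : aeval ![d.a, d.b, d.c] q ≠ 0 := by
  intro h
  exact hq ((algebraicIndependent_iff.1 d.ind) q h)

theorem one_sub_a : 1 - d.a ^ 2 ≠ 0 := by
  have h : (1 - X 0 ^ 2 : MvPolynomial (Fin 3) ℂ) ≠ 0 := by
    intro h
    have := congrArg (MvPolynomial.eval (fun _ => (0 : ℂ))) h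
    simp at this
  have := poly_ne d h
  simpa using this

theorem one_sub_b : 1 - d.b ^ 2 ≠ 0 := by
  have h : (1 - X 1 ^ 2 : MvPolynomial (Fin 3) ℂ) ≠ 0 := by
    intro h
    have := congrArg (MvPolynomial.eval (fun _ => (0 : ℂ))) h
    simp at this
  have := poly_ne d h
  simpa using this

theorem r_ne : d.r ≠ 0 := by
  intro h
  have h1 := d.r3
  rw [h, zero_pow (by norm_num), zero_mul] at h1
  exact mul_ne_zero (pow_ne_zero _ (a_ne d)) (one_sub_b d) h1.symm

theorem der_zero {D : Derivation ℂ K K} (ha : D d.a = 0) (hb : D d.b = 0) (hc : D d.c = 0) :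
    D = 0 := by
  have h1 : IntermediateField.adjoin ℂ ({d.a, d.b, d.c} : Set K) ≤ kerD D := by
    rw [IntermediateField.adjoin_le_iff]
    intro x hx
    rcases hx with rfl | rfl | rfl
    · exact ha
    · exact hb
    · exact hc
  have h2 : D (d.r ^ 3 * (d.b ^ 2 * (1 - d.a ^ 2))) = D (d.a ^ 2 * (1 - d.b ^ 2)) := by
    rw [d.r3]
  have h3 : D (1 : K) = 0 := D.map_one_eq_zero
  have h4 : D d.r = 0 := by
    simp only [Derivation.leibniz, Derivation.leibniz_pow, map_sub, ha, hb, h3, smul_eq_mul,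
      smul_zero, mul_zero, sub_zero, add_zero, zero_add, nsmul_eq_mul] at h2
    have h5 := mul_ne_zero (pow_ne_zero 2 (b_ne d)) (one_sub_a d)
    have h6 := pow_ne_zero 2 (r_ne d)
    rcases mul_eq_zero.1 h2 with h7 | h7
    · exact absurd h7 h5
    · have : CharZero K := charZero_of_injective_algebraMap (algebraMap ℂ K).injective
      have h8 : (3 : K) ≠ 0 := by norm_num
      rcases mul_eq_zero.1 h7 with h9 | h9
      · exact absurd (by exact_mod_cast h9) h8
      · rcases mul_eq_zero.1 h9 with h10 | h10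
        · exact absurd (by simpa using h10) (r_ne d)
        · exact h10
  ext f
  obtain ⟨g0, hg0, g1, hg1, g2, hg2, rfl⟩ := d.gen f
  have k0 : D g0 = 0 := h1 hg0
  have k1 : D g1 = 0 := h1 hg1
  have k2 : D g2 = 0 := h1 hg2
  simp [Derivation.leibniz, Derivation.leibniz_pow, k0, k1, k2, h4]

/-- The partial derivatives exist and span. -/
theorem exists_fol {K : Type} [Field K] [Algebra ℂ K] (d : Dat K) :
    ∃ T : Foliation K 3, IsPd d T ∧ T.space = ⊤ := by
  classical
  have : CharZero ℂ := inferInstance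
  have hex : ∀ i : Fin 3, ∃ D : Derivation ℂ K K,
      ∀ j, D (![d.a, d.b, d.c] j) = if i = j then 1 else 0 := fun i =>
    Pool.Agent.H135R2.VS.exists_der d.ind _
  choose P hP using hex
  have hsum : ∀ D : Derivation ℂ K K, D = ∑ i : Fin 3, D (![d.a, d.b, d.c] i) • P i := by
    intro D
    have h : D - ∑ i : Fin 3, D (![d.a, d.b, d.c] i) • P i = 0 := by
      have key : ∀ j : Fin 3, (D - ∑ i : Fin 3, D (![d.a, d.b, d.c] i) • P i)
          (![d.a, d.b, d.c] j) = 0 := by
        intro j
        rw [Derivation.sub_apply, der_sum_apply]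
        simp only [hP, mul_ite, mul_one, mul_zero, Finset.sum_ite_eq', Finset.mem_univ, if_true,
          sub_self]
      exact der_zero d (key 0) (key 1) (key 2)
    exact sub_eq_zero.1 h
  have hspan : Submodule.span K (Set.range P) = ⊤ := by
    rw [eq_top_iff]
    intro D _
    rw [hsum D]
    exact Submodule.sum_mem _ fun i _ => Submodule.smul_mem _ _ (Submodule.subset_span ⟨i, rfl⟩)
  refine ⟨⟨P, ?_, fun i j => ?_⟩, fun i j => hP i j, hspan⟩
  · rw [Fintype.linearIndependent_iff]
    intro g hg i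
    have h := DFunLike.congr_fun hg (![d.a, d.b, d.c] i)
    rw [Derivation.coe_zero, Pi.zero_apply, der_sum_apply] at h
    simpa only [hP, mul_ite, mul_one, mul_zero, Finset.sum_ite_eq', Finset.mem_univ, if_true]
      using h
  · rw [hspan]
    exact Submodule.mem_top

end der

section ex

/-- The polynomial ring. -/
abbrev Q : Type := MvPolynomial (Fin 3) ℂ

/-- The field of rational functions. -/
abbrev F : Type := FractionRing Q

/-- The coordinates. -/
noncomputable abbrev y (i : Fin 3) : F := cv F i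

theorem y_eq (i : Fin 3) : y i = algebraMap Q F (X i) := rfl

theorem y_ne (i : Fin 3) : y i ≠ 0 := cv_ne i

theorem one_sub_X_ne (i : Fin 3) : (1 - X i ^ 2 : Q) ≠ 0 := by
  intro h
  have := congrArg (MvPolynomial.eval (fun _ => (0 : ℂ))) h
  simp at this

theorem one_sub_y (i : Fin 3) : 1 - y i ^ 2 ≠ 0 := by
  have h := jo_ne (K := F) (one_sub_X_ne i)
  rwa [map_sub, map_one, map_pow] at h

/-- The element whose cube root is adjoined. -/
noncomputable def rho : F := y 0 ^ 2 * (1 - y 1 ^ 2) / (y 1 ^ 2 * (1 - y 0 ^ 2))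

theorem rho_mul : rho * (y 1 ^ 2 * (1 - y 0 ^ 2)) = y 0 ^ 2 * (1 - y 1 ^ 2) :=
  div_mul_cancel₀ _ (mul_ne_zero (pow_ne_zero _ (y_ne 1)) (one_sub_y 0))

theorem rho_ne : rho ≠ 0 := by
  intro h
  have h1 := rho_mul
  rw [h, zero_mul] at h1
  exact mul_ne_zero (pow_ne_zero _ (y_ne 0)) (one_sub_y 1) h1.symm

/-- The valuation at the prime element `X 1`. -/
noncomputable def v1 : DVal F := valP F (X 1 : Q) MvPolynomial.X_prime

theorem v1_zero {q : Q} (hq : ¬ (X 1 : Q) ∣ q) : v1.ord (algebraMap Q F q) = 0 := by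
  have hq0 : q ≠ 0 := by
    rintro rfl
    exact hq (dvd_zero _)
  have h1 := valP_ord (K := F) (p := (X 1 : Q)) MvPolynomial.X_prime hq0
  rw [show v1.ord = (valP F (X 1 : Q) MvPolynomial.X_prime).ord from rfl, h1]
  rw [multiplicity_eq_zero.2 hq]
  rfl

theorem v1_one : v1.ord (y 1) = 1 := by
  have h1 := valP_ord (K := F) (p := (X 1 : Q)) MvPolynomial.X_prime
    (MvPolynomial.X_prime (i := (1 : Fin 3)) (R := ℂ)).ne_zero
  rw [y_eq, show v1.ord = (valP F (X 1 : Q) MvPolynomial.X_prime).ord from rfl, h1]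
  rw [multiplicity_self]
  rfl

theorem not_dvd {q : Q} (e : Fin 3 → ℂ) (he : e 1 = 0) (hq : MvPolynomial.eval e q ≠ 0) :
    ¬ (X 1 : Q) ∣ q := by
  rintro ⟨s, rfl⟩
  apply hq
  rw [map_mul, eval_X, he, zero_mul]

theorem not_cube (s : F) : s ^ 3 ≠ rho := by
  intro h
  have hs : s ≠ 0 := by
    rintro rfl
    exact rho_ne (by rw [← h]; norm_num)
  have h1 := rho_mul
  rw [← h] at h1
  have k0 : v1.ord (y 0) = 0 := v1_zero (not_dvd (fun i => if i = 1 then 0 else 1) (by simp)
    (by simp))
  have k1 : v1.ord (1 - y 0 ^ 2) = 0 := by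
    have := v1_zero (q := 1 - X 0 ^ 2) (not_dvd (fun _ => 0) rfl (by simp))
    rwa [map_sub, map_one, map_pow] at this
  have k2 : v1.ord (1 - y 1 ^ 2) = 0 := by
    have := v1_zero (q := 1 - X 1 ^ 2) (not_dvd (fun _ => 0) rfl (by simp))
    rwa [map_sub, map_one, map_pow] at this
  have h2 := congrArg v1.ord h1
  rw [v1.map_mul _ _ (pow_ne_zero _ hs) (mul_ne_zero (pow_ne_zero _ (y_ne 1)) (one_sub_y 0)),
    v1.map_mul _ _ (pow_ne_zero _ (y_ne 1)) (one_sub_y 0),
    v1.map_mul _ _ (pow_ne_zero _ (y_ne 0)) (one_sub_y 1),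
    v1.ord_pow hs, v1.ord_pow (y_ne 1), v1.ord_pow (y_ne 0), k0, k1, k2, v1_one] at h2
  push_cast at h2
  omega

/-- The cubic polynomial. -/
noncomputable abbrev f3 : Polynomial F := Polynomial.X ^ 3 - Polynomial.C rho

instance irr : Fact (Irreducible f3) :=
  ⟨X_pow_sub_C_irreducible_of_prime Nat.prime_three not_cube⟩

/-- The field. -/
abbrev KK : Type := AdjoinRoot f3

theorem f3_monic : f3.Monic := Polynomial.monic_X_pow_sub_C _ (by norm_num)

theorem f3_deg : f3.natDegree = 3 := Polynomial.natDegree_X_pow_sub_C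

instance ess1 : Algebra.EssFiniteType ℂ F :=
  Algebra.EssFiniteType.comp ℂ Q F

instance ess2 : Algebra.EssFiniteType ℂ KK := by
  have : Module.Finite F KK := f3_monic.finite_adjoinRoot
  exact Algebra.EssFiniteType.comp ℂ F KK

/-- The cube root. -/
noncomputable def rr : KK := AdjoinRoot.root f3

theorem rr3 : rr ^ 3 = algebraMap F KK rho := by
  have h := AdjoinRoot.eval₂_root f3
  rw [Polynomial.eval₂_sub, Polynomial.eval₂_pow, Polynomial.eval₂_X, Polynomial.eval₂_C,
    sub_eq_zero] at h
  exact h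

/-- The three elements. -/
noncomputable def z (i : Fin 3) : KK := algebraMap F KK (y i)

theorem z_ind : AlgebraicIndependent ℂ ![z 0, z 1, z 2] := by
  have h1 : AlgebraicIndependent ℂ (cv F : Fin 3 → F) := algInd_cv
  have h2 := h1.map' (f := IsScalarTower.toAlgHom ℂ F KK) (algebraMap F KK).injective
  have h3 : ![z 0, z 1, z 2] = (IsScalarTower.toAlgHom ℂ F KK) ∘ (cv F : Fin 3 → F) := by
    ext i
    fin_cases i <;> rfl
  rw [h3]
  exact h2

theorem mem_adj (g : F) :
    algebraMap F KK g ∈ IntermediateField.adjoin ℂ ({z 0, z 1, z 2} : Set KK) := by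
  have hz : ∀ i : Fin 3, z i ∈ IntermediateField.adjoin ℂ ({z 0, z 1, z 2} : Set KK) := by
    intro i
    apply IntermediateField.subset_adjoin
    fin_cases i <;> simp
  have hq : ∀ q : Q, algebraMap F KK (algebraMap Q F q) ∈
      IntermediateField.adjoin ℂ ({z 0, z 1, z 2} : Set KK) := by
    intro q
    induction q using MvPolynomial.induction_on with
    | C c =>
      rw [← jo_apply, jo_C, ← IsScalarTower.algebraMap_apply ℂ F KK]
      exact IntermediateField.algebraMap_mem _ c
    | add p q hp hq => rw [map_add, map_add]; exact add_mem hp hq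
    | mul_X p j hp => rw [map_mul, map_mul]; exact mul_mem hp (hz j)
  obtain ⟨p, q, hq0, rfl⟩ := exists_frac Q g
  rw [map_div₀]
  exact div_mem (hq p) (hq q)

/-- The primitive third root of unity. -/
noncomputable def om : ℂ := Complex.exp (2 * Real.pi * Complex.I / (3 : ℕ))

theorem om_prim : IsPrimitiveRoot om 3 := Complex.isPrimitiveRoot_exp 3 (by norm_num)

/-- The automorphism over `F`. -/
noncomputable def sig : KK →ₐ[F] KK :=
  AdjoinRoot.liftAlgHom f3 (Algebra.ofId F KK) (algebraMap ℂ KK om * rr) (by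
    have h1 : (algebraMap ℂ KK om * rr) ^ 3 = algebraMap F KK rho := by
      rw [mul_pow, rr3, ← map_pow, om_prim.pow_eq_one, map_one, one_mul]
    rw [Polynomial.eval₂_sub, Polynomial.eval₂_pow, Polynomial.eval₂_X, Polynomial.eval₂_C, h1]
    exact sub_self _)

theorem sig_rr : sig rr = algebraMap ℂ KK om * rr := by
  unfold sig rr
  exact AdjoinRoot.liftAlgHom_root _ _ _ _

/-- The field exists. -/
theorem exists_dat : ∃ (K : Type) (_ : Field K) (_ : Algebra ℂ K) (_ : Algebra.EssFiniteType ℂ K),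
    Nonempty (Dat K) := by
  refine ⟨KK, inferInstance, inferInstance, ess2, ⟨{
    a := z 0
    b := z 1
    c := z 2
    r := rr
    ind := z_ind
    r3 := ?_
    gen := ?_
    ω := om
    hω := om_prim
    σ := sig.restrictScalars ℂ
    σa := sig.commutes _
    σb := sig.commutes _
    σc := sig.commutes _
    σr := sig_rr }⟩⟩
  · have h := congrArg (algebraMap F KK) rho_mul
    rw [map_mul, map_mul, map_mul, map_sub, map_sub, map_one, map_pow, map_pow, ← rr3] at h
    exact h
  · intro f
    obtain ⟨p, rfl⟩ := AdjoinRoot.mk_surjective f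
    refine ⟨algebraMap F KK ((p %ₘ f3).coeff 0), mem_adj _,
      algebraMap F KK ((p %ₘ f3).coeff 1), mem_adj _,
      algebraMap F KK ((p %ₘ f3).coeff 2), mem_adj _, ?_⟩
    have h1 : AdjoinRoot.mk f3 p = AdjoinRoot.mk f3 (p %ₘ f3) := by
      have h2 := Polynomial.modByMonic_add_div p f3
      conv_lhs => rw [← h2]
      rw [map_add, map_mul, AdjoinRoot.mk_self, zero_mul, add_zero]
    have h3 : (p %ₘ f3).natDegree < 3 := by
      have := Polynomial.natDegree_modByMonic_lt p f3_monic (by
        intro h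
        have := f3_deg
        rw [h] at this
        simp at this)
      rwa [f3_deg] at this
    have h4 := Polynomial.as_sum_range_C_mul_X_pow' (p := p %ₘ f3) h3
    rw [h1]
    conv_lhs => rw [h4]
    rw [Finset.sum_range_succ, Finset.sum_range_succ, Finset.sum_range_one]
    simp only [map_add, map_mul, map_pow, pow_zero, mul_one, pow_one, AdjoinRoot.mk_X,
      AdjoinRoot.mk_C]
    rfl

end ex

end Pool.Agent.TH922.C8_DAT
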